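import Mathlib

set_option autoImplicit false
open Set Metric MeasureTheory

namespace Pool.Agent.H.MP_cb3f7b_gt

abbrev E := EuclideanSpace ℝ (Fin 2)

def El (p q : ℝ) : Set E := {z | p * z 0 ^ 2 + q * z 1 ^ 2 ≤ 1}

def K : Set E := {z | ∀ a b : ℝ, a ^ 2 + b ^ 2 = 1 → 6 * (a * z 0 + b * z 1) ^ 2 ≤ 2 + a ^ 2 * b ^ 2}

lemma sqc {s t x y : ℝ} (hs : 0 ≤ s) (ht : 0 ≤ t) (e : s + t = 1) :
    (s * x + t * y) ^ 2 ≤ s * x ^ 2 + t * y ^ 2 := by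
  obtain rfl : s = 1 - t := by linarith
  nlinarith [mul_nonneg (mul_nonneg hs ht) (sq_nonneg (x - y))]

lemma El_convex {p q : ℝ} (hp : 0 ≤ p) (hq : 0 ≤ q) : Convex ℝ (El p q) := by
  intro x hx y hy s t hs ht e
  have a := mul_le_mul_of_nonneg_left (sqc (x := x 0) (y := y 0) hs ht e) hp
  have b := mul_le_mul_of_nonneg_left (sqc (x := x 1) (y := y 1) hs ht e) hq
  have c := mul_le_mul_of_nonneg_left (show p * x 0 ^ 2 + q * x 1 ^ 2 ≤ 1 from hx) hs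
  have d := mul_le_mul_of_nonneg_left (show p * y 0 ^ 2 + q * y 1 ^ 2 ≤ 1 from hy) ht
  show p * (s * x 0 + t * y 0) ^ 2 + q * (s * x 1 + t * y 1) ^ 2 ≤ 1
  linarith

lemma El_compact {p q : ℝ} (hp : 1 ≤ p) (hq : 1 ≤ q) : IsCompact (El p q) := by
  refine (isCompact_closedBall 0 1).of_isClosed_subset
    (isClosed_le (by fun_prop) continuous_const) fun y hy => ?_
  have hy : p * y 0 ^ 2 + q * y 1 ^ 2 ≤ 1 := hy
  rw [mem_closedBall_zero_iff, EuclideanSpace.norm_eq, Real.sqrt_le_left (by norm_num)]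
  simp only [Fin.sum_univ_two, Real.norm_eq_abs, sq_abs]
  nlinarith [sq_nonneg (y 0), sq_nonneg (y 1)]

lemma El_int {p q : ℝ} {z : E} (h : p * z 0 ^ 2 + q * z 1 ^ 2 < 1) : z ∈ interior (El p q) :=
  interior_maximal (t := {z : E | p * z 0 ^ 2 + q * z 1 ^ 2 < 1}) 
    (fun y hz => show p * y 0 ^ 2 + q * y 1 ^ 2 ≤ 1 from le_of_lt hz)
    (isOpen_lt (by fun_prop) continuous_const) h

lemma unit {a b : ℝ} (h : 0 < a ^ 2 + b ^ 2) :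
    ∃ r c d : ℝ, 0 < r ∧ c ^ 2 + d ^ 2 = 1 ∧ a = r * c ∧ b = r * d := by
  have r0 := Real.sqrt_pos.2 h
  refine ⟨√(a ^ 2 + b ^ 2), a / √(a ^ 2 + b ^ 2), b / √(a ^ 2 + b ^ 2), r0, ?_, by field_simp,
    by field_simp⟩
  rw [div_pow, div_pow, Real.sq_sqrt h.le, ← add_div, div_self h.ne']

lemma K_hom {z : E} (hz : z ∈ K) (a b : ℝ) :
    6 * (a ^ 2 + b ^ 2) * (a * z 0 + b * z 1) ^ 2 ≤ 2 * (a ^ 2 + b ^ 2) ^ 2 + a ^ 2 * b ^ 2 := by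
  rcases (show 0 ≤ a ^ 2 + b ^ 2 by positivity).eq_or_lt with h | h
  · rw [← h]; simp; positivity
  obtain ⟨r, c, d, r0, e, rfl, rfl⟩ := unit h
  have := mul_le_mul_of_nonneg_left (hz c d e) (show 0 ≤ r ^ 4 by positivity)
  rw [show (r * c) ^ 2 + (r * d) ^ 2 = r ^ 2 by linear_combination r ^ 2 * e]
  linarith

lemma K_convex : Convex ℝ K := by
  intro x hx y hy s t hs ht e a b h
  have c := sqc (x := a * x 0 + b * x 1) (y := a * y 0 + b * y 1) hs ht e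
  have d := mul_le_mul_of_nonneg_left (hx a b h) hs
  have f := mul_le_mul_of_nonneg_left (hy a b h) ht
  show 6 * (a * (s * x 0 + t * y 0) + b * (s * x 1 + t * y 1)) ^ 2 ≤ _
  rw [show a * (s * x 0 + t * y 0) + b * (s * x 1 + t * y 1) =
    s * (a * x 0 + b * x 1) + t * (a * y 0 + b * y 1) by ring]
  have : s * (2 + a ^ 2 * b ^ 2) + t * (2 + a ^ 2 * b ^ 2) = 2 + a ^ 2 * b ^ 2 := by
    rw [← add_mul, e, one_mul]
  linarith

lemma aux {x y : ℝ} (h : 6 * ((2 * x) ^ 2 + y ^ 2) * (2 * x * x + y * y) ^ 2 ≤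
    2 * ((2 * x) ^ 2 + y ^ 2) ^ 2 + (2 * x) ^ 2 * y ^ 2) : 2 * x ^ 2 + 1 * y ^ 2 < 1 := by
  by_contra k
  push Not at k
  obtain ⟨X, hX⟩ : ∃ X, X = x ^ 2 := ⟨_, rfl⟩
  obtain ⟨Y, hY⟩ : ∃ Y, Y = y ^ 2 := ⟨_, rfl⟩
  have X0 : 0 ≤ X := by rw [hX]; positivity
  have Y0 : 0 ≤ Y := by rw [hY]; positivity
  have h' : 6 * (4 * X + Y) * (2 * X + Y) ^ 2 ≤ 2 * (8 * X + Y) * (2 * X + Y) := by
    rw [hX, hY]; linarith
  rw [← hX, ← hY] at k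
  have a : (4 * X + Y) * (2 * X + Y) * 1 ≤ (4 * X + Y) * (2 * X + Y) * (2 * X + Y) := by
    gcongr; linarith
  nlinarith

lemma K_sub : K ⊆ interior (El 2 1) ∩ interior (El 1 2) := fun z hz =>
  ⟨El_int (aux (K_hom hz (2 * z 0) (z 1))), El_int (by
    have := aux (x := z 1) (y := z 0) (by linarith [K_hom hz (z 0) (2 * z 1)])
    linarith)⟩

lemma K_compact : IsCompact K := by
  refine (El_compact (p := 2) (q := 1) (by norm_num) le_rfl).of_isClosed_subset ?_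
    fun z hz => interior_subset (K_sub hz).1
  simp only [K, ofPred_forall]
  exact isClosed_iInter fun a => isClosed_iInter fun b => isClosed_iInter fun _ =>
    isClosed_le (by fun_prop) continuous_const

lemma K_int : (interior K).Nonempty := by
  refine ⟨0, interior_mono (fun z hz a b h => ?_) (El_int (p := 3) (q := 3) (by simp))⟩
  have hz : 3 * z 0 ^ 2 + 3 * z 1 ^ 2 ≤ 1 := hz
  have : (a * z 0 + b * z 1) ^ 2 + (a * z 1 - b * z 0) ^ 2 = z 0 ^ 2 + z 1 ^ 2 := by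
    linear_combination (z 0 ^ 2 + z 1 ^ 2) * h
  nlinarith [sq_nonneg (a * z 1 - b * z 0), sq_nonneg (a * b)]

lemma key {a b c d : ℝ} (h : a ^ 2 + b ^ 2 = 1) (k : c ^ 2 + d ^ 2 = 1) :
    (2 + a ^ 2 * b ^ 2) * (a * c + b * d) + a * b * (a ^ 2 - b ^ 2) * (a * d - b * c) ≤
      2 + a * b * (c * d) := by
  obtain ⟨γ, hγ⟩ : ∃ γ, γ = a * c + b * d := ⟨_, rfl⟩
  obtain ⟨σ, hσ⟩ : ∃ σ, σ = a * d - b * c := ⟨_, rfl⟩
  have e1 : γ ^ 2 + σ ^ 2 = 1 := by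
    rw [hγ, hσ]; linear_combination (c ^ 2 + d ^ 2) * h + k
  have e2 : c * d = a * b * (γ ^ 2 - σ ^ 2) + (a ^ 2 - b ^ 2) * γ * σ := by
    rw [hγ, hσ]; linear_combination (-(c * d) * (a ^ 2 + b ^ 2 + 1)) * h
  rw [← hγ, ← hσ, e2]
  obtain ⟨P, hP⟩ : ∃ P, P = a * b := ⟨_, rfl⟩
  obtain ⟨D, hD⟩ : ∃ D, D = a ^ 2 - b ^ 2 := ⟨_, rfl⟩
  have e3 : 4 * P ^ 2 + D ^ 2 = 1 := by
    rw [hP, hD]; linear_combination (a ^ 2 + b ^ 2 + 1) * h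
  rw [← mul_pow, ← hP, ← hD]
  have g1 : γ ≤ 1 := by nlinarith [sq_nonneg σ]
  have g2 : 0 ≤ 2 - P ^ 2 * (2 * γ + 1) - P * D * σ := by
    have : P ^ 2 * (2 * γ + 1) ≤ P ^ 2 * 3 := by gcongr; linarith
    have : (P * D) ^ 2 ≤ 1 := by nlinarith [sq_nonneg P, sq_nonneg D]
    nlinarith [sq_nonneg (P * D - σ), sq_nonneg γ, sq_nonneg D]
  have := mul_nonneg (sub_nonneg.2 g1) g2
  have e4 : σ ^ 2 = 1 - γ ^ 2 := by linarith
  rw [e4]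
  linarith

lemma touch {a b : ℝ} (h : a ^ 2 + b ^ 2 = 1) :
    ∃ z ∈ K, a * z 0 + b * z 1 = √((2 + a ^ 2 * b ^ 2) / 6) := by
  obtain ⟨G, hG⟩ : ∃ G, G = √((2 + a ^ 2 * b ^ 2) / 6) := ⟨_, rfl⟩
  have G0 : 0 < G := by rw [hG]; positivity
  have G2 : 6 * G ^ 2 = 2 + a ^ 2 * b ^ 2 := by rw [hG, Real.sq_sqrt (by positivity)]; ring
  obtain ⟨H, hH⟩ : ∃ H, 6 * G * H = a * b * (a ^ 2 - b ^ 2) :=
    ⟨a * b * (a ^ 2 - b ^ 2) / (6 * G), by field_simp⟩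
  refine ⟨!₂[G * a - H * b, G * b + H * a], fun c d k => ?_, ?_⟩
  · have k1 := key h k
    have k2 := key h (c := -c) (d := -d) (by linarith)
    show 6 * (c * (G * a - H * b) + d * (G * b + H * a)) ^ 2 ≤ _
    obtain ⟨R, hR⟩ : ∃ R, R = c * (G * a - H * b) + d * (G * b + H * a) := ⟨_, rfl⟩
    have e : 6 * G * R =
        (2 + a ^ 2 * b ^ 2) * (a * c + b * d) + a * b * (a ^ 2 - b ^ 2) * (a * d - b * c) := by
      rw [← G2, ← hH, hR]; ring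
    have i1 : (6 * G * R) ^ 2 ≤ (2 + a * b * (c * d)) ^ 2 := sq_le_sq' (by linarith) (by linarith)
    have i2 : (2 + a * b * (c * d)) ^ 2 ≤ 6 * G ^ 2 * (2 + c ^ 2 * d ^ 2) := by
      rw [G2]; nlinarith [sq_nonneg (a * b - c * d)]
    rw [← hR]
    exact le_of_mul_le_mul_left (a := 6 * G ^ 2) (by linarith) (by positivity)
  · rw [← hG]
    show a * (G * a - H * b) + b * (G * b + H * a) = G
    linear_combination G * h

lemma supp {a b c : ℝ} (h : 0 < a ^ 2 + b ^ 2) (h1 : ∀ z ∈ K, a * z 0 + b * z 1 ≤ c)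
    (h2 : ∃ z ∈ K, a * z 0 + b * z 1 = c) :
    6 * (a ^ 2 + b ^ 2) * c ^ 2 = 2 * (a ^ 2 + b ^ 2) ^ 2 + a ^ 2 * b ^ 2 := by
  refine le_antisymm ?_ ?_
  · obtain ⟨z, hz, rfl⟩ := h2
    exact K_hom hz a b
  obtain ⟨r, p, q, r0, e, rfl, rfl⟩ := unit h
  obtain ⟨z, hz, k⟩ := touch e
  have := h1 z hz
  have i : (r * √((2 + p ^ 2 * q ^ 2) / 6)) ^ 2 ≤ c ^ 2 := by
    gcongr
    rw [← k]; linarith
  rw [mul_pow, Real.sq_sqrt (by positivity)] at i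
  rw [show (r * p) ^ 2 + (r * q) ^ 2 = r ^ 2 by linear_combination r ^ 2 * e]
  nlinarith [mul_le_mul_of_nonneg_left i (sq_nonneg r)]

lemma iffq {Q A B L c : ℝ} (hA : 0 < A) (hB : 0 < B) (e : Q * A = L ^ 2 + 2 * c ^ 2)
    (hc : 2 * (A + B) * c ^ 2 = A * B) : Q ≤ 1 ↔ (A + B) * (L / A) ^ 2 ≤ 1 := by
  have : (A + B) * (L / A) ^ 2 - 1 = (A + B) / A * (Q - 1) := by
    field_simp
    linear_combination (-(A + B)) * e - hc
  rw [← sub_nonpos, ← sub_nonpos (a := (A + B) * _), this]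
  have p : 0 < (A + B) / A := by positivity
  constructor <;> intro h <;> nlinarith

lemma sect {a b c : ℝ} (h : 0 < a ^ 2 + b ^ 2)
    (hc : 6 * (a ^ 2 + b ^ 2) * c ^ 2 = 2 * (a ^ 2 + b ^ 2) ^ 2 + a ^ 2 * b ^ 2) (d : ℝ) :
    Measure.hausdorffMeasure d (El 2 1 ∩ {z : E | a * z 0 + b * z 1 = c}) =
      Measure.hausdorffMeasure d (El 1 2 ∩ {z : E | a * z 0 + b * z 1 = c}) := by
  have hA : 0 < 2 * b ^ 2 + a ^ 2 := by nlinarith [sq_nonneg b]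
  have hB : 0 < b ^ 2 + 2 * a ^ 2 := by nlinarith [sq_nonneg a]
  obtain ⟨t, ht⟩ : ∃ t, t = -3 * a * b * c / ((2 * b ^ 2 + a ^ 2) * (b ^ 2 + 2 * a ^ 2)) :=
    ⟨_, rfl⟩
  rw [← (IsometryEquiv.addRight (!₂[-(t * b), t * a] : E)).hausdorffMeasure_preimage d
    (El 1 2 ∩ _)]
  congr 1
  ext z
  show 2 * z 0 ^ 2 + 1 * z 1 ^ 2 ≤ 1 ∧ a * z 0 + b * z 1 = c ↔
    1 * (z 0 + -(t * b)) ^ 2 + 2 * (z 1 + t * a) ^ 2 ≤ 1 ∧
      a * (z 0 + -(t * b)) + b * (z 1 + t * a) = c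
  rw [show a * (z 0 + -(t * b)) + b * (z 1 + t * a) = a * z 0 + b * z 1 by ring]
  refine and_congr_left fun e => ?_
  rw [iffq (Q := 2 * z 0 ^ 2 + 1 * z 1 ^ 2) hA hB (L := z 1 * a - 2 * z 0 * b) (c := c)
    (by rw [← e]; ring) (by linarith),
    iffq (Q := 1 * (z 0 + -(t * b)) ^ 2 + 2 * (z 1 + t * a) ^ 2) hB hA
      (L := 2 * (z 1 + t * a) * a - (z 0 + -(t * b)) * b) (c := c) (by rw [← e]; ring)
      (by linarith), add_comm (b ^ 2 + 2 * a ^ 2)]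
  have : (2 * (z 1 + t * a) * a - (z 0 + -(t * b)) * b) / (b ^ 2 + 2 * a ^ 2) =
      (z 1 * a - 2 * z 0 * b) / (2 * b ^ 2 + a ^ 2) := by
    rw [ht, ← e]; field_simp; ring
  rw [this]

lemma main (u : E) (hu : u ≠ 0) (c : ℝ) (h1 : ∀ x ∈ K, inner ℝ u x ≤ c)
    (h2 : ∃ x ∈ K, inner ℝ u x = c) (d : ℝ) :
    Measure.hausdorffMeasure d (El 2 1 ∩ {z : E | inner ℝ u z = c}) =
      Measure.hausdorffMeasure d (El 1 2 ∩ {z : E | inner ℝ u z = c}) := by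
  have i : ∀ x : E, inner ℝ u x = u 0 * x 0 + u 1 * x 1 := fun x => by
    simp [PiLp.inner_apply, Fin.sum_univ_two, mul_comm]
  have p : 0 < u 0 ^ 2 + u 1 ^ 2 := by
    have := norm_pos_iff.2 hu
    rw [EuclideanSpace.norm_eq, Real.sqrt_pos] at this
    simpa [Fin.sum_univ_two] using this
  simp only [i] at h1 h2 ⊢
  exact sect p (supp p h1 h2) _

lemma ne : El 2 1 ≠ El 1 2 := by
  intro e
  have m : (!₂[0, 1] : E) ∈ El 2 1 := by simp [El]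
  rw [e] at m
  simp [El] at m

end Pool.Agent.H.MP_cb3f7b_gt
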